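import Mathlib

/-!
# Permutation wordle: the cyclic shift strategy maximises the cubic coefficient

Positions, entries and guesses are indexed by `Fin n`.  A strategy gives a permutation `S k` of
`Fin k` for every `k` (only the `k ≤ n` matter for secret permutations of `Fin n`).
-/

set_option autoImplicit false

namespace Pool.Agent.Results.MP_433145_co.CyclicShiftMaximal

open Finset

/-- A strategy: a permutation `S k` of `k` positions for every `k`. -/
abbrev Strategy := (k : ℕ) → Equiv.Perm (Fin k)

/-- `S` is deranged (up to length `n`): `S k` has no fixed point for `2 ≤ k ≤ n`. -/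
def Deranged (n : ℕ) (S : Strategy) : Prop := ∀ k, 2 ≤ k → k ≤ n → ∀ j, S k j ≠ j

/-- The cyclic shift strategy `CS[k] = [2, 3, …, k, 1]`. -/
def CS : Strategy := fun k => finRotate k

variable {n : ℕ}

/-- For `I = {i_1 < … < i_k}` and a permutation `τ` of `k` letters: the permutation of all positions
with `i_j ↦ i_{τ(j)}` which fixes the positions outside `I`. -/
def move (I : Finset (Fin n)) (τ : Equiv.Perm (Fin I.card)) : Equiv.Perm (Fin n) :=
  Equiv.Perm.ofSubtype ((I.orderIsoOfFin rfl).toEquiv.permCongr τ)

/-- The set of the incorrect positions of the guess `γ` for the secret permutation `π`. -/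
def wrong (γ π : Equiv.Perm (Fin n)) : Finset (Fin n) := univ.filter fun i => γ i ≠ π i

/-- The next guess: with `{i_1 < … < i_k}` the incorrect positions of `γ`, it agrees with `γ` at the
correct positions, and its entry at the position `i_{S[k](j)}` is the entry of `γ` at `i_j`. -/
def nextGuess (S : Strategy) (π γ : Equiv.Perm (Fin n)) : Equiv.Perm (Fin n) :=
  γ * (move (wrong γ π) (S (wrong γ π).card))⁻¹

/-- `guess S π r` is the guess number `r + 1` of the game with the secret permutation `π`; the first
guess is the identity. -/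
def guess (S : Strategy) (π : Equiv.Perm (Fin n)) : ℕ → Equiv.Perm (Fin n)
  | 0 => 1
  | r + 1 => nextGuess S π (guess S π r)

/-- `count n S r` is the number of the secret permutations `π` of `Fin n` for which the game using
`S` ends after exactly `r` guesses. -/
def count (n : ℕ) (S : Strategy) (r : ℕ) : ℕ :=
  (univ.filter fun π : Equiv.Perm (Fin n) =>
    1 ≤ r ∧ guess S π (r - 1) = π ∧ ∀ s < r - 1, guess S π s ≠ π).card

/-- The generating function `f_S(x) = ∑ a_r(S) x^r`. -/
noncomputable def f (n : ℕ) (S : Strategy) : PowerSeries ℕ := PowerSeries.mk (count n S)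

lemma move_of_notMem {I : Finset (Fin n)} (τ : Equiv.Perm (Fin I.card)) {x : Fin n} (hx : x ∉ I) :
    move I τ x = x := Equiv.Perm.ofSubtype_apply_of_not_mem _ hx

lemma move_apply {I : Finset (Fin n)} (τ : Equiv.Perm (Fin I.card)) (j : Fin I.card) :
    move I τ (I.orderIsoOfFin rfl j) = I.orderIsoOfFin rfl (τ j) := by
  unfold move
  rw [Equiv.Perm.ofSubtype_apply_coe]
  simp [Equiv.permCongr_apply]

/-- the defining property of `nextGuess` -/
lemma nextGuess_spec (S : Strategy) (π γ : Equiv.Perm (Fin n)) :
    (∀ i, γ i = π i → nextGuess S π γ i = γ i) ∧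
    ∀ j : Fin (wrong γ π).card,
      nextGuess S π γ ((wrong γ π).orderIsoOfFin rfl (S (wrong γ π).card j)) =
        γ ((wrong γ π).orderIsoOfFin rfl j) := by
  constructor
  · intro i hi
    have h : i ∉ wrong γ π := by simp [wrong, hi]
    have h2 := move_of_notMem (S (wrong γ π).card) h
    unfold nextGuess
    rw [Equiv.Perm.mul_apply, Equiv.Perm.inv_eq_iff_eq.2 h2.symm]
  · intro j
    unfold nextGuess
    rw [Equiv.Perm.mul_apply, ← move_apply]
    congr 1
    exact Equiv.symm_apply_apply _ _

lemma move_mem {I : Finset (Fin n)} (τ : Equiv.Perm (Fin I.card)) {x : Fin n} (hx : x ∈ I) :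
    move I τ x ∈ I := by
  obtain ⟨j, hj⟩ : ∃ j, ((I.orderIsoOfFin rfl j : I) : Fin n) = x :=
    ⟨(I.orderIsoOfFin rfl).symm ⟨x, hx⟩, by simp⟩
  rw [← hj, move_apply]
  exact (I.orderIsoOfFin rfl (τ j)).2

lemma move_ne {I : Finset (Fin n)} {τ : Equiv.Perm (Fin I.card)} (hτ : ∀ j, τ j ≠ j) {x : Fin n}
    (hx : x ∈ I) : move I τ x ≠ x := by
  obtain ⟨j, hj⟩ : ∃ j, ((I.orderIsoOfFin rfl j : I) : Fin n) = x :=
    ⟨(I.orderIsoOfFin rfl).symm ⟨x, hx⟩, by simp⟩
  rw [← hj, move_apply]
  intro h
  exact hτ j ((I.orderIsoOfFin rfl).injective (Subtype.ext h))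

/-- the set of pairs which encode the games with three guesses -/
def good (n : ℕ) (S : Strategy) : Finset (Finset (Fin n) × Finset (Fin n)) :=
  univ.filter fun p => p.2 ⊆ p.1 ∧ 2 ≤ p.2.card ∧
    ∀ x ∈ p.1, move p.2 (S p.2.card) (move p.1 (S p.1.card) x) ≠ x

lemma move_eq_one_of_card_le {I : Finset (Fin n)} (h : I.card ≤ 1) (τ : Equiv.Perm (Fin I.card)) :
    move I τ = 1 := by
  ext x
  by_cases hx : x ∈ I
  · have h2 := move_mem τ hx
    rw [Finset.card_le_one] at h
    rw [h _ h2 _ hx]
    rfl
  · rw [move_of_notMem τ hx]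
    rfl

lemma support_move {S : Strategy} (hS : Deranged n S) {I : Finset (Fin n)} (h : 2 ≤ I.card)
    (x : Fin n) : move I (S I.card) x ≠ x ↔ x ∈ I := by
  constructor
  · intro h1
    by_contra h2
    exact h1 (move_of_notMem _ h2)
  · intro h1
    exact move_ne (hS _ h ((card_le_univ I).trans (by simp))) h1

lemma count_eq (S : Strategy) (hS : Deranged n S) : count n S 3 = (good n S).card := by
  unfold count
  refine Finset.card_bij (fun π _ => (wrong 1 π, wrong (guess S π 1) π)) ?_ ?_ ?_
  · intro π hπ
    rw [mem_filter] at hπ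
    obtain ⟨-, -, h3, h4⟩ := hπ
    have h1 : guess S π 0 ≠ π := h4 0 (by norm_num)
    have h2 : guess S π 1 ≠ π := h4 1 (by norm_num)
    set I := wrong (1 : Equiv.Perm (Fin n)) π with hI
    set K := wrong (guess S π 1) π with hK
    have e1 : guess S π 1 = (move I (S I.card))⁻¹ := by
      change nextGuess S π 1 = _
      unfold nextGuess
      rw [one_mul]
    have e2 : π = (move I (S I.card))⁻¹ * (move K (S K.card))⁻¹ := by
      rw [← e1]
      exact h3.symm
    have hKc : 2 ≤ K.card := by
      by_contra hlt
      push Not at hlt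
      have h5 := move_eq_one_of_card_le (by omega : K.card ≤ 1) (S K.card)
      rw [h5] at e2
      apply h2
      rw [e1]
      conv_rhs => rw [e2]
      simp
    have hIc : 2 ≤ I.card := by
      by_contra hlt
      push Not at hlt
      have h5 := move_eq_one_of_card_le (by omega : I.card ≤ 1) (S I.card)
      have h6 : K = I := by
        rw [hK, hI, e1, h5, inv_one]
      rw [h6] at hKc
      omega
    have hmemI : ∀ x, x ∈ I ↔ π x ≠ x := by
      intro x
      rw [hI]
      unfold wrong
      rw [mem_filter]
      exact ⟨fun h h' => h.2 h'.symm, fun h => ⟨mem_univ _, fun h' => h h'.symm⟩⟩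
    have hmemI' : ∀ x, x ∈ I ↔ move K (S K.card) (move I (S I.card) x) ≠ x := by
      intro x
      rw [hmemI, e2]
      rw [not_iff_not, Equiv.Perm.mul_apply]
      constructor
      · intro h
        rw [Equiv.Perm.inv_eq_iff_eq, Equiv.Perm.inv_eq_iff_eq] at h
        exact h.symm
      · intro h
        rw [Equiv.Perm.inv_eq_iff_eq, Equiv.Perm.inv_eq_iff_eq]
        exact h.symm
    rw [good, mem_filter]
    refine ⟨mem_univ _, ?_, hKc, fun x hx => (hmemI' x).1 hx⟩
    intro x hx
    change x ∈ I
    by_contra hxI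
    have h6 := move_of_notMem (S I.card) hxI
    apply hxI
    rw [hmemI', h6]
    exact (support_move hS hKc x).2 hx
  · intro π hπ π' hπ' heq
    rw [mem_filter] at hπ hπ'
    simp only [Prod.mk.injEq] at heq
    have e1 : ∀ ρ : Equiv.Perm (Fin n), guess S ρ 1 =
        (move (wrong 1 ρ) (S (wrong 1 ρ).card))⁻¹ := by
      intro ρ
      change nextGuess S ρ 1 = _
      unfold nextGuess
      rw [one_mul]
    have e2 : guess S π 1 = guess S π' 1 := by
      rw [e1, e1, heq.1]
    have e3 : guess S π 2 = guess S π' 2 := by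
      change nextGuess S π (guess S π 1) = nextGuess S π' (guess S π' 1)
      unfold nextGuess
      rw [heq.2, e2]
    rw [← hπ.2.2.1, ← hπ'.2.2.1]
    exact e3
  · rintro ⟨I, K⟩ hIK
    rw [good, mem_filter] at hIK
    obtain ⟨-, hsub, hKc, hne⟩ := hIK
    simp only at hsub hKc hne
    have hIc : 2 ≤ I.card := hKc.trans (card_le_card hsub)
    set σ := move I (S I.card) with hσ
    set τ := move K (S K.card) with hτ
    refine ⟨σ⁻¹ * τ⁻¹, ?_, ?_⟩
    all_goals
      have hw1 : wrong (1 : Equiv.Perm (Fin n)) (σ⁻¹ * τ⁻¹) = I := by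
        ext x
        unfold wrong
        rw [mem_filter]
        constructor
        · rintro ⟨-, h⟩
          by_contra hx
          apply h
          have h1 : τ x = x := move_of_notMem _ (fun h' => hx (hsub h'))
          have h2 : σ x = x := move_of_notMem _ hx
          rw [Equiv.Perm.mul_apply, Equiv.Perm.inv_eq_iff_eq.2 h1.symm,
            Equiv.Perm.inv_eq_iff_eq.2 h2.symm]
          rfl
        · intro hx
          refine ⟨mem_univ _, fun h => hne x hx ?_⟩
          have h1 : x = (σ⁻¹ * τ⁻¹) x := h
          rw [Equiv.Perm.mul_apply, Equiv.Perm.eq_inv_iff_eq, Equiv.Perm.eq_inv_iff_eq] at h1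
          exact h1
      have hg1 : guess S (σ⁻¹ * τ⁻¹) 1 = σ⁻¹ := by
        change nextGuess S (σ⁻¹ * τ⁻¹) 1 = _
        unfold nextGuess
        rw [one_mul, hw1]
      have hw2 : wrong (guess S (σ⁻¹ * τ⁻¹) 1) (σ⁻¹ * τ⁻¹) = K := by
        rw [hg1]
        ext x
        unfold wrong
        rw [mem_filter]
        have h3 := support_move hS hKc x
        constructor
        · rintro ⟨-, h⟩
          rw [← h3]
          intro h4
          apply h
          rw [Equiv.Perm.mul_apply]
          congr 1
          rw [Equiv.Perm.eq_inv_iff_eq]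
          exact h4
        · intro hx
          refine ⟨mem_univ _, fun h => h3.2 hx ?_⟩
          rw [Equiv.Perm.mul_apply] at h
          have h5 := σ⁻¹.injective h
          rw [Equiv.Perm.eq_inv_iff_eq] at h5
          exact h5
    · rw [mem_filter]
      refine ⟨mem_univ _, by norm_num, ?_, ?_⟩
      · change nextGuess S (σ⁻¹ * τ⁻¹) (guess S (σ⁻¹ * τ⁻¹) 1) = _
        unfold nextGuess
        rw [hw2, hg1]
      · intro s hs
        have hs' : s = 0 ∨ s = 1 := by omega
        rcases hs' with rfl | rfl
        · intro h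
          have h1 : wrong (1 : Equiv.Perm (Fin n)) (σ⁻¹ * τ⁻¹) = ∅ := by
            unfold wrong
            rw [filter_eq_empty_iff]
            intro x _
            rw [not_not]
            have h' : (1 : Equiv.Perm (Fin n)) = σ⁻¹ * τ⁻¹ := h
            rw [← h']
          rw [hw1] at h1
          rw [h1] at hIc
          simp at hIc
        · intro h
          have h1 : wrong (guess S (σ⁻¹ * τ⁻¹) 1) (σ⁻¹ * τ⁻¹) = ∅ := by
            unfold wrong
            rw [filter_eq_empty_iff]
            intro x _
            rw [not_not, h]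
          rw [hw2] at h1
          rw [h1] at hKc
          simp at hKc
    · simp only [hw1, hw2]

/-- the bad sets `K` for given `I` -/
def bad (S : Strategy) (I : Finset (Fin n)) : Finset (Finset (Fin n)) :=
  I.powerset.filter fun K => 2 ≤ K.card ∧ ∃ x ∈ I, move K (S K.card) (move I (S I.card) x) = x

lemma core (I : Finset (Fin n)) (σ : Equiv.Perm (Fin n)) (z : Fin n → Fin n)
    (hne : ∀ x ∈ I, σ x ≠ x) (hzx : ∀ x ∈ I, z x ≠ x) (hzs : ∀ x ∈ I, z x ≠ σ x)
    (F : Fin n → Finset (Fin n))
    (hF1 : ∀ x, (σ (σ x) = x ∧ σ x < x) → F x = {x, σ x, z x})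
    (hF2 : ∀ x, ¬ (σ (σ x) = x ∧ σ x < x) → F x = {x, σ x}) {x y : Fin n} (hx : x ∈ I) (hy : y ∈ I)
    (hxy : F x = F y) : x = y := by
  have hc3 : ∀ x ∈ I, ({x, σ x, z x} : Finset (Fin n)).card = 3 := fun x hx => by
    rw [card_eq_three]
    exact ⟨x, σ x, z x, (hne x hx).symm, (hzx x hx).symm, (hzs x hx).symm, rfl⟩
  have hc2 : ∀ x ∈ I, ({x, σ x} : Finset (Fin n)).card = 2 := fun x hx => card_pair (hne x hx).symm
  by_cases h : σ (σ x) = x ∧ σ x < x
  · by_cases h' : σ (σ y) = y ∧ σ y < y
    · rw [hF1 x h, hF1 y h'] at hxy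
      -- two disjoint pairs do not fit in a set with three elements
      have hy3 : y ∈ ({x, σ x, z x} : Finset (Fin n)) := by rw [hxy]; simp
      have hsy3 : σ y ∈ ({x, σ x, z x} : Finset (Fin n)) := by rw [hxy]; simp
      rw [mem_insert, mem_insert, mem_singleton] at hy3 hsy3
      rcases hy3 with h1 | h1 | h1
      · exact h1.symm
      · exfalso
        have h3 := h'.2
        rw [h1, h.1] at h3
        exact absurd h3 (not_lt.2 h.2.le)
      · rcases hsy3 with h2 | h2 | h2
        · exfalso
          have h3 : y = σ x := by rw [← h2, h'.1]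
          have h4 := h'.2
          rw [h3, h.1] at h4
          exact absurd h4 (not_lt.2 h.2.le)
        · exact (σ.injective h2).symm
        · exfalso
          exact hne y hy (h2.trans h1.symm)
    · rw [hF1 x h, hF2 y h'] at hxy
      exfalso
      have h1 := hc3 x hx
      rw [hxy, hc2 y hy] at h1
      omega
  · by_cases h' : σ (σ y) = y ∧ σ y < y
    · rw [hF2 x h, hF1 y h'] at hxy
      exfalso
      have h1 := hc3 y hy
      rw [← hxy, hc2 x hx] at h1
      omega
    · rw [hF2 x h, hF2 y h'] at hxy
      have h1 : y ∈ ({x, σ x} : Finset (Fin n)) := by rw [hxy]; simp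
      have h2 : σ y ∈ ({x, σ x} : Finset (Fin n)) := by rw [hxy]; simp
      rw [mem_insert, mem_singleton] at h1 h2
      rcases h1 with h1 | h1
      · exact h1.symm
      · rcases h2 with h2 | h2
        · -- `x`, `y` form a 2-cycle
          exfalso
          have h3 : σ (σ x) = x := by rw [← h1, h2]
          have h4 : σ (σ y) = y := by rw [h2, h1]
          rcases lt_trichotomy x y with h5 | h5 | h5
          · exact h' ⟨h4, by rw [h2]; exact h5⟩
          · exact hne x hx (by rw [← h1, ← h5])
          · exact h ⟨h3, by rw [← h1]; exact h5⟩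
        · exact (σ.injective h2).symm

lemma bad_lower (S : Strategy) (hS : Deranged n S) (I : Finset (Fin n)) (hI : 3 ≤ I.card) :
    I.card ≤ (bad S I).card := by
  classical
  set σ := move I (S I.card) with hσ
  have hne : ∀ x ∈ I, σ x ≠ x := fun x hx => (support_move hS (by omega) x).2 hx
  have hmem : ∀ x ∈ I, σ x ∈ I := fun x hx => move_mem _ hx
  have hz : ∀ x ∈ I, ∃ z ∈ I, z ≠ x ∧ z ≠ σ x := by
    intro x hx
    have h1 : 1 ≤ ((I.erase x).erase (σ x)).card := by
      have h2 := pred_card_le_card_erase (s := I) (a := x)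
      have h3 := pred_card_le_card_erase (s := I.erase x) (a := σ x)
      omega
    obtain ⟨z, hz⟩ := card_pos.1 h1
    rw [mem_erase, mem_erase] at hz
    exact ⟨z, hz.2.2, hz.2.1, hz.1⟩
  choose! z hzI hzx hzs using hz
  let F : Fin n → Finset (Fin n) := fun x =>
    if σ (σ x) = x ∧ σ x < x then {x, σ x, z x} else {x, σ x}
  have hF1 : ∀ x, (σ (σ x) = x ∧ σ x < x) → F x = {x, σ x, z x} := fun x h => if_pos h
  have hF2 : ∀ x, ¬ (σ (σ x) = x ∧ σ x < x) → F x = {x, σ x} := fun x h => if_neg h
  refine card_le_card_of_injOn F ?_ ?_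
  · intro x hx
    have hx : x ∈ I := hx
    rw [mem_coe]
    unfold bad
    rw [mem_filter, mem_powerset]
    by_cases h : σ (σ x) = x ∧ σ x < x
    · rw [hF1 x h]
      have hcard : ({x, σ x, z x} : Finset (Fin n)).card = 3 := by
        rw [card_eq_three]
        exact ⟨x, σ x, z x, (hne x hx).symm, (hzx x hx).symm, (hzs x hx).symm, rfl⟩
      refine ⟨?_, by omega, ?_⟩
      · intro y hy
        simp only [mem_insert, mem_singleton] at hy
        rcases hy with rfl | rfl | rfl
        · exact hx
        · exact hmem _ hx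
        · exact hzI _ hx
      · set K : Finset (Fin n) := {x, σ x, z x} with hK
        set τ := move K (S K.card) with hτ
        have hxK : x ∈ K := by simp [hK]
        have hyK : σ x ∈ K := by simp [hK]
        have h1 : τ x ∈ K := move_mem _ hxK
        have h2 : τ (σ x) ∈ K := move_mem _ hyK
        have h3 : τ x ≠ x := (support_move hS (by omega) x).2 hxK
        have h4 : τ (σ x) ≠ σ x := (support_move hS (by omega) _).2 hyK
        by_cases h5 : τ (σ x) = x
        · exact ⟨x, hx, h5⟩
        · by_cases h6 : τ x = σ x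
          · refine ⟨σ x, hmem x hx, ?_⟩
            rw [h.1]
            exact h6
          · exfalso
            have h7 : τ x = z x := by
              simp only [hK, mem_insert, mem_singleton] at h1
              tauto
            have h8 : τ (σ x) = z x := by
              simp only [hK, mem_insert, mem_singleton] at h2
              tauto
            have h9 := τ.injective (h7.trans h8.symm)
            exact hne x hx h9.symm
    · rw [hF2 x h]
      have hcard : ({x, σ x} : Finset (Fin n)).card = 2 := card_pair (hne x hx).symm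
      refine ⟨?_, by omega, x, hx, ?_⟩
      · intro y hy
        simp only [mem_insert, mem_singleton] at hy
        rcases hy with rfl | rfl
        · exact hx
        · exact hmem _ hx
      · set K : Finset (Fin n) := {x, σ x} with hK
        set τ := move K (S K.card) with hτ
        have hyK : σ x ∈ K := by simp [hK]
        have h2 : τ (σ x) ∈ K := move_mem _ hyK
        have h4 : τ (σ x) ≠ σ x := (support_move hS (by omega) _).2 hyK
        simp only [hK, mem_insert, mem_singleton] at h2
        change τ (σ x) = x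
        tauto
  · intro x hx y hy hxy
    exact core I σ z hne hzx hzs F hF1 hF2 hx hy hxy

lemma rotate_val : ∀ (m : ℕ) (j : Fin m),
    ((finRotate m j : Fin m) : ℕ) = if (j : ℕ) + 1 = m then 0 else (j : ℕ) + 1
  | 0, j => j.elim0
  | m + 1, j => by
    rw [coe_finRotate]
    by_cases h : j = Fin.last m
    · subst h
      simp
    · rw [if_neg h]
      have h2 : (j : ℕ) ≠ m := fun h3 => h (Fin.ext h3)
      rw [if_neg (by omega)]

lemma cs_spec (K : Finset (Fin n)) {y : Fin n} (hy : y ∈ K) :
    (y < move K (CS K.card) y ∧ ∀ z ∈ K, z ≤ y ∨ move K (CS K.card) y ≤ z) ∨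
    (move K (CS K.card) y ≤ y ∧ ∀ z ∈ K, move K (CS K.card) y ≤ z ∧ z ≤ y) := by
  obtain ⟨j, hj⟩ : ∃ j, ((K.orderIsoOfFin rfl j : K) : Fin n) = y :=
    ⟨(K.orderIsoOfFin rfl).symm ⟨y, hy⟩, by simp⟩
  have hidx : ∀ z ∈ K, ∃ i, ((K.orderIsoOfFin rfl i : K) : Fin n) = z := fun z hz =>
    ⟨(K.orderIsoOfFin rfl).symm ⟨z, hz⟩, by simp⟩
  have hle : ∀ i i' : Fin K.card, ((K.orderIsoOfFin rfl i : K) : Fin n) ≤ K.orderIsoOfFin rfl i' ↔
      i ≤ i' := by
    intro i i'
    rw [Subtype.coe_le_coe]
    exact (K.orderIsoOfFin rfl).le_iff_le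
  have hlt : ∀ i i' : Fin K.card, ((K.orderIsoOfFin rfl i : K) : Fin n) < K.orderIsoOfFin rfl i' ↔
      i < i' := by
    intro i i'
    rw [Subtype.coe_lt_coe]
    exact (K.orderIsoOfFin rfl).lt_iff_lt
  rw [← hj, move_apply]
  have hval : ((CS K.card j : Fin K.card) : ℕ) = if (j : ℕ) + 1 = K.card then 0 else (j : ℕ) + 1 := by
    exact rotate_val _ j
  by_cases hlast : (j : ℕ) + 1 = K.card
  · rw [if_pos hlast] at hval
    right
    refine ⟨(hle _ _).2 (by rw [Fin.le_def, hval]; omega), ?_⟩
    intro z hz
    obtain ⟨i, rfl⟩ := hidx z hz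
    refine ⟨(hle _ _).2 (by rw [Fin.le_def, hval]; omega), (hle _ _).2 ?_⟩
    rw [Fin.le_def]
    have := i.2
    omega
  · rw [if_neg hlast] at hval
    left
    refine ⟨(hlt _ _).2 (by rw [Fin.lt_def, hval]; omega), ?_⟩
    intro z hz
    obtain ⟨i, rfl⟩ := hidx z hz
    rcases le_or_gt i j with h | h
    · left
      exact (hle _ _).2 h
    · right
      refine (hle _ _).2 ?_
      rw [Fin.le_def, hval]
      exact h

lemma cs_deranged (n : ℕ) : Deranged n CS := by
  intro k hk _ j h
  obtain ⟨m, rfl⟩ : ∃ m', k = m' + 2 := ⟨k - 2, by omega⟩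
  have h1 := congrArg Fin.val h
  unfold CS at h1
  rw [coe_finRotate] at h1
  by_cases h2 : j = Fin.last (m + 1)
  · rw [if_pos h2, h2] at h1
    simp at h1
  · rw [if_neg h2] at h1
    omega

lemma bad_upper (I : Finset (Fin n)) (hI : 2 ≤ I.card) : (bad CS I).card ≤ I.card := by
  classical
  have hsub : bad CS I ⊆ I.image (fun x => ({x, move I (CS I.card) x} : Finset (Fin n))) := by
    intro K hK
    unfold bad at hK
    rw [mem_filter, mem_powerset] at hK
    obtain ⟨hKI, hK2, x, hx, hxe⟩ := hK
    rw [mem_image]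
    refine ⟨x, hx, ?_⟩
    set y := move I (CS I.card) x with hy
    have hxy : y ≠ x := (support_move (cs_deranged n) hI x).2 hx
    have hyK : y ∈ K := by
      by_contra h
      rw [move_of_notMem _ h] at hxe
      exact hxy hxe
    have hxK : x ∈ K := by
      rw [← hxe]
      exact move_mem _ hyK
    have h1 := cs_spec I hx
    have h2 := cs_spec K hyK
    rw [hxe] at h2
    rw [← hy] at h1
    ext w
    simp only [mem_insert, mem_singleton]
    constructor
    · rintro (rfl | rfl)
      · exact hxK
      · exact hyK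
    · intro hw
      have hwI := hKI hw
      rcases h1 with ⟨h1, h1'⟩ | ⟨h1, h1'⟩
      · rcases h2 with ⟨h2, h2'⟩ | ⟨h2, h2'⟩
        · exact absurd h2 (not_lt.2 h1.le)
        · have h3 := h1' w hwI
          have h4 := h2' w hw
          rcases h3 with h3 | h3
          · left
            exact le_antisymm h3 h4.1
          · right
            exact le_antisymm h4.2 h3
      · have h1'' : y < x := lt_of_le_of_ne h1 hxy
        rcases h2 with ⟨h2, h2'⟩ | ⟨h2, h2'⟩
        · have h3 := h1' w hwI
          have h4 := h2' w hw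
          rcases h4 with h4 | h4
          · right
            exact le_antisymm h4 h3.1
          · left
            exact le_antisymm h3.2 h4
        · exact absurd h1'' (not_lt.2 h2)
  exact (card_le_card hsub).trans card_image_le

lemma bad_le (S : Strategy) (hS : Deranged n S) (I : Finset (Fin n)) :
    (bad CS I).card ≤ (bad S I).card := by
  rcases le_or_gt 3 I.card with h3 | h3
  · exact (bad_upper I (by omega)).trans (bad_lower S hS I h3)
  · -- at most one candidate
    have key : ∀ T : Strategy, Deranged n T → bad T I = I.powerset.filter fun K => 2 ≤ K.card := by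
      intro T hT
      unfold bad
      apply filter_congr
      intro K hK
      rw [mem_powerset] at hK
      refine ⟨fun h => h.1, fun h => ⟨h, ?_⟩⟩
      have hI2 : I.card = 2 := by
        have := card_le_card hK
        omega
      have hKI : K = I := eq_of_subset_of_card_le hK (by omega)
      subst hKI
      obtain ⟨x, hx⟩ := card_pos.1 (by omega : 0 < K.card)
      refine ⟨x, hx, ?_⟩
      set σ := move K (T K.card) with hσ
      have h1 : σ x ∈ K := move_mem _ hx
      have h2 : σ x ≠ x := (support_move hT h x).2 hx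
      have h3 : σ (σ x) ∈ K := move_mem _ h1
      have h4 : σ (σ x) ≠ σ x := (support_move hT h _).2 h1
      by_contra h5
      have h6 : ({x, σ x, σ (σ x)} : Finset (Fin n)).card = 3 := by
        rw [card_eq_three]
        exact ⟨x, σ x, σ (σ x), h2.symm, fun h => h5 h.symm, h4.symm, rfl⟩
      have h7 : ({x, σ x, σ (σ x)} : Finset (Fin n)) ⊆ K := by
        intro w hw
        simp only [mem_insert, mem_singleton] at hw
        rcases hw with rfl | rfl | rfl <;> assumption
      have := card_le_card h7
      omega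
    rw [key S hS, key CS (cs_deranged n)]

lemma good_card (S : Strategy) :
    (good n S).card + ∑ I : Finset (Fin n), (bad S I).card =
      ∑ I : Finset (Fin n), (I.powerset.filter fun K => 2 ≤ K.card).card := by
  classical
  have h1 : (good n S).card = ∑ I : Finset (Fin n), (I.powerset.filter fun K => 2 ≤ K.card ∧
      ∀ x ∈ I, move K (S K.card) (move I (S I.card) x) ≠ x).card := by
    rw [← card_sigma]
    refine card_bij (fun p _ => ⟨p.1, p.2⟩) ?_ ?_ ?_
    · intro p hp
      rw [good, mem_filter] at hp
      rw [mem_sigma, mem_filter, mem_powerset]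
      exact ⟨mem_univ _, hp.2.1, hp.2.2.1, hp.2.2.2⟩
    · intro p _ q _ h
      have h1 : p.1 = q.1 := congrArg Sigma.fst h
      have h2 : p.2 = q.2 := by
        have := (Sigma.mk.injEq _ _ _ _).mp h
        exact eq_of_heq this.2
      exact Prod.ext h1 h2
    · rintro ⟨I, K⟩ h
      rw [mem_sigma, mem_filter, mem_powerset] at h
      refine ⟨(I, K), ?_, rfl⟩
      rw [good, mem_filter]
      exact ⟨mem_univ _, h.2.1, h.2.2.1, h.2.2.2⟩
  rw [h1, ← sum_add_distrib]
  apply sum_congr rfl
  intro I _
  unfold bad
  rw [← card_union_of_disjoint]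
  · congr 1
    ext K
    simp only [mem_union, mem_filter, mem_powerset]
    constructor
    · rintro (⟨a, b, _⟩ | ⟨a, b, _⟩) <;> exact ⟨a, b⟩
    · rintro ⟨a, b⟩
      by_cases hh : ∃ x ∈ I, move K (S K.card) (move I (S I.card) x) = x
      · exact Or.inr ⟨a, b, hh⟩
      · push Not at hh
        exact Or.inl ⟨a, b, hh⟩
  · rw [disjoint_left]
    intro K h h'
    rw [mem_filter] at h h'
    obtain ⟨x, hx, hxe⟩ := h'.2.2
    exact h.2.2 x hx hxe

/-- For all `n` (in particular for all `n ≥ 4`) and every deranged strategy `S` of length `n`, the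
cubic coefficient of `f_S` is at most the cubic coefficient of `f_CS`. -/
theorem result (n : ℕ) (S : Strategy) (hS : Deranged n S) :
    PowerSeries.coeff 3 (f n S) ≤ PowerSeries.coeff 3 (f n CS) := by
  unfold f
  rw [PowerSeries.coeff_mk, PowerSeries.coeff_mk, count_eq S hS, count_eq CS (cs_deranged n)]
  have h1 := good_card (n := n) S
  have h2 := good_card (n := n) CS
  have h3 : ∑ I : Finset (Fin n), (bad CS I).card ≤ ∑ I : Finset (Fin n), (bad S I).card :=
    sum_le_sum fun I _ => bad_le S hS I
  omega

end Pool.Agent.Results.MP_433145_co.CyclicShiftMaximal
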